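import Pool.Agent.Helper57.RBC.Tor
import Pool.Agent.Helper82.HB.Defs

/-!
# FM: linear algebra of the torsion, rectangular version of `Helper57/RBC/Tor.lean`
-/

open Complex Metric Set Filter Topology MeasureTheory
open scoped ContDiff ComplexConjugate ComplexOrder Manifold Matrix Kronecker

namespace Pool.Agent.Helper50.FM

open Pool.Agent.Helper95.Lin Pool.Agent.Helper16.Abund Pool.Agent.Helper92.Orb
  Pool.Agent.Helper10.SP Pool.Agent.Helper95.RK Pool.Agent.Helper57.HS
  Pool.Agent.Helper15.HS Pool.Agent.Helper57.RBC Pool.Agent.Helper82.HB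

variable {a b c : ℕ}

/-- The Hermitian form of a tensor with three indices. -/
noncomputable def FG (T : Fin a → Fin b → Fin c → ℂ) (U : Matrix (Fin a) (Fin a) ℂ)
    (V : Matrix (Fin b) (Fin b) ℂ) (W : Matrix (Fin c) (Fin c) ℂ) : ℂ :=
  ∑ k, ∑ l, ∑ i, ∑ j, ∑ q, ∑ p, U l k * V j i * W p q * (T k i p * conj (T l j q))

theorem sum6 (f : Fin a → Fin b → Fin c → Fin a → Fin b → Fin c → ℂ) :
    ∑ l, ∑ j, ∑ q, ∑ k, ∑ i, ∑ p, f l j q k i p =
      ∑ k, ∑ l, ∑ i, ∑ j, ∑ q, ∑ p, f l j q k i p := by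
  calc ∑ l, ∑ j, ∑ q, ∑ k, ∑ i, ∑ p, f l j q k i p
      = ∑ l, ∑ j, ∑ k, ∑ q, ∑ i, ∑ p, f l j q k i p := by
        refine Finset.sum_congr rfl fun l _ => Finset.sum_congr rfl fun j _ => ?_
        exact Finset.sum_comm
    _ = ∑ l, ∑ k, ∑ j, ∑ q, ∑ i, ∑ p, f l j q k i p := by
        refine Finset.sum_congr rfl fun l _ => ?_
        exact Finset.sum_comm
    _ = ∑ k, ∑ l, ∑ j, ∑ q, ∑ i, ∑ p, f l j q k i p := Finset.sum_comm
    _ = ∑ k, ∑ l, ∑ j, ∑ i, ∑ q, ∑ p, f l j q k i p := by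
        refine Finset.sum_congr rfl fun k _ => Finset.sum_congr rfl fun l _ =>
          Finset.sum_congr rfl fun j _ => ?_
        exact Finset.sum_comm
    _ = _ := by
        refine Finset.sum_congr rfl fun k _ => Finset.sum_congr rfl fun l _ => ?_
        exact Finset.sum_comm

/-- The vector of a tensor. -/
def tv (T : Fin a → Fin b → Fin c → ℂ) (z : Fin a × Fin b × Fin c) : ℂ := T z.1 z.2.1 z.2.2

theorem FG_quad (T : Fin a → Fin b → Fin c → ℂ) (U : Matrix (Fin a) (Fin a) ℂ)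
    (V : Matrix (Fin b) (Fin b) ℂ) (W : Matrix (Fin c) (Fin c) ℂ) :
    FG T U V W = star (tv T) ⬝ᵥ ((U ⊗ₖ (V ⊗ₖ Wᵀ)) *ᵥ tv T) := by
  unfold FG
  rw [← sum6 (fun l j q k i p => U l k * V j i * W p q * (T k i p * conj (T l j q)))]
  simp only [dotProduct, Matrix.mulVec, Fintype.sum_prod_type, Finset.mul_sum, Pi.star_apply,
    Matrix.kroneckerMap_apply, Matrix.transpose_apply, tv]
  refine Finset.sum_congr rfl fun l _ => Finset.sum_congr rfl fun j _ =>
    Finset.sum_congr rfl fun q _ => Finset.sum_congr rfl fun k _ =>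
    Finset.sum_congr rfl fun i _ => Finset.sum_congr rfl fun p _ => ?_
  rw [Complex.star_def]
  ring

theorem FG_nonneg (T : Fin a → Fin b → Fin c → ℂ) {U : Matrix (Fin a) (Fin a) ℂ}
    {V : Matrix (Fin b) (Fin b) ℂ} {W : Matrix (Fin c) (Fin c) ℂ}
    (hU : U.PosSemidef) (hV : V.PosSemidef) (hW : W.PosSemidef) : 0 ≤ FG T U V W := by
  rw [FG_quad]
  exact (hU.kronecker (hV.kronecker hW.transpose)).dotProduct_mulVec_nonneg _

theorem FG_zero (T : Fin a → Fin b → Fin c → ℂ) {U : Matrix (Fin a) (Fin a) ℂ}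
    {V : Matrix (Fin b) (Fin b) ℂ} {W : Matrix (Fin c) (Fin c) ℂ}
    (hU : U.PosSemidef) (hV : V.PosDef) (hW : W.PosDef) (h : (FG T U V W).re ≤ 0)
    (l : Fin a) (i : Fin b) (p : Fin c) : ∑ k, U l k * T k i p = 0 := by
  have h0 := FG_nonneg T hU hV.posSemidef hW.posSemidef
  have h1 : FG T U V W = 0 := by
    rw [Complex.nonneg_iff] at h0
    exact Complex.ext (le_antisymm h h0.1) h0.2.symm
  rw [FG_quad] at h1
  have hM := hU.kronecker (hV.posSemidef.kronecker hW.posSemidef.transpose)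
  have h2 := (hM.dotProduct_mulVec_zero_iff _).1 h1
  set S : Matrix (Fin b) (Fin c) ℂ := Matrix.of fun i p => ∑ k, U l k * T k i p with hS
  have h3 : V * S * W = 0 := by
    ext j q
    have h4 := congrFun h2 (l, j, q)
    simp only [Matrix.mulVec, dotProduct, Fintype.sum_prod_type, Matrix.kroneckerMap_apply,
      Matrix.transpose_apply, tv, Pi.zero_apply] at h4
    rw [Matrix.zero_apply, ← h4, Matrix.mul_apply]
    simp only [Matrix.mul_apply, hS, Matrix.of_apply, Finset.sum_mul, Finset.mul_sum]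
    calc ∑ p, ∑ i, ∑ k, V j i * (U l k * T k i p) * W p q
        = ∑ i, ∑ p, ∑ k, V j i * (U l k * T k i p) * W p q := Finset.sum_comm
      _ = ∑ i, ∑ k, ∑ p, V j i * (U l k * T k i p) * W p q := by
          refine Finset.sum_congr rfl fun i _ => ?_
          exact Finset.sum_comm
      _ = ∑ k, ∑ i, ∑ p, V j i * (U l k * T k i p) * W p q := Finset.sum_comm
      _ = _ := by
          refine Finset.sum_congr rfl fun k _ => Finset.sum_congr rfl fun i _ =>
            Finset.sum_congr rfl fun p _ => ?_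
          ring
  have hVu : IsUnit V.det := (Matrix.isUnit_iff_isUnit_det V).1 hV.isUnit
  have hWu : IsUnit W.det := (Matrix.isUnit_iff_isUnit_det W).1 hW.isUnit
  have h5 : S = 0 := by
    calc S = (V⁻¹ * V) * S * (W * W⁻¹) := by
          rw [Matrix.nonsing_inv_mul _ hVu, Matrix.mul_nonsing_inv _ hWu, Matrix.one_mul,
            Matrix.mul_one]
      _ = V⁻¹ * (V * S * W) * W⁻¹ := by simp only [Matrix.mul_assoc]
      _ = 0 := by rw [h3, Matrix.mul_zero, Matrix.zero_mul]
  have h6 := congrFun (congrFun h5 i) p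
  rw [hS, Matrix.of_apply, Matrix.zero_apply] at h6
  exact h6

theorem FG_left (T : Fin a → Fin b → Fin c → ℂ) (U U' : Matrix (Fin a) (Fin a) ℂ)
    (V : Matrix (Fin b) (Fin b) ℂ) (W : Matrix (Fin c) (Fin c) ℂ) (z : ℂ) :
    FG T (z • U - U') V W = z * FG T U V W - FG T U' V W := by
  unfold FG
  simp only [Finset.mul_sum, ← Finset.sum_sub_distrib]
  refine Finset.sum_congr rfl fun k _ => Finset.sum_congr rfl fun l _ =>
    Finset.sum_congr rfl fun i _ => Finset.sum_congr rfl fun j _ =>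
    Finset.sum_congr rfl fun q _ => Finset.sum_congr rfl fun p _ => ?_
  rw [Matrix.sub_apply, Matrix.smul_apply, smul_eq_mul]
  ring

theorem FG_right (T : Fin a → Fin b → Fin c → ℂ) (U : Matrix (Fin a) (Fin a) ℂ)
    (V V' : Matrix (Fin b) (Fin b) ℂ) (W : Matrix (Fin c) (Fin c) ℂ) (z : ℂ) :
    FG T U (z • V - V') W = z * FG T U V W - FG T U V' W := by
  unfold FG
  simp only [Finset.mul_sum, ← Finset.sum_sub_distrib]
  refine Finset.sum_congr rfl fun k _ => Finset.sum_congr rfl fun l _ =>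
    Finset.sum_congr rfl fun i _ => Finset.sum_congr rfl fun j _ =>
    Finset.sum_congr rfl fun q _ => Finset.sum_congr rfl fun p _ => ?_
  rw [Matrix.sub_apply, Matrix.smul_apply, smul_eq_mul]
  ring

theorem FG_smul (T : Fin a → Fin b → Fin c → ℂ) (U : Matrix (Fin a) (Fin a) ℂ)
    (V : Matrix (Fin b) (Fin b) ℂ) (W : Matrix (Fin c) (Fin c) ℂ) (z : ℂ) :
    FG T (z • U) V W = z * FG T U V W := by
  have h := FG_left T U 0 V W z
  have h0 : FG T 0 V W = 0 := by
    unfold FG
    simp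
  rw [sub_zero, h0, sub_zero] at h
  exact h

theorem FG_swap (T : Fin a → Fin b → Fin c → ℂ) (U : Matrix (Fin b) (Fin b) ℂ)
    (V : Matrix (Fin a) (Fin a) ℂ) (W : Matrix (Fin c) (Fin c) ℂ) :
    FG (fun k i p => T i k p) U V W = FG T V U W := by
  unfold FG
  calc ∑ k, ∑ l, ∑ i, ∑ j, ∑ q, ∑ p, U l k * V j i * W p q * (T i k p * conj (T j l q))
      = ∑ k, ∑ i, ∑ l, ∑ j, ∑ q, ∑ p, U l k * V j i * W p q * (T i k p * conj (T j l q)) := by
        refine Finset.sum_congr rfl fun k _ => ?_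
        exact Finset.sum_comm
    _ = ∑ i, ∑ k, ∑ l, ∑ j, ∑ q, ∑ p, U l k * V j i * W p q * (T i k p * conj (T j l q)) :=
        Finset.sum_comm
    _ = ∑ i, ∑ k, ∑ j, ∑ l, ∑ q, ∑ p, U l k * V j i * W p q * (T i k p * conj (T j l q)) := by
        refine Finset.sum_congr rfl fun i _ => Finset.sum_congr rfl fun k _ => ?_
        exact Finset.sum_comm
    _ = ∑ i, ∑ j, ∑ k, ∑ l, ∑ q, ∑ p, U l k * V j i * W p q * (T i k p * conj (T j l q)) := by
        refine Finset.sum_congr rfl fun i _ => ?_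
        exact Finset.sum_comm
    _ = _ := by
        refine Finset.sum_congr rfl fun i _ => Finset.sum_congr rfl fun j _ =>
          Finset.sum_congr rfl fun k _ => Finset.sum_congr rfl fun l _ =>
          Finset.sum_congr rfl fun q _ => Finset.sum_congr rfl fun p _ => ?_
        ring

theorem FG_sub_le (A B : Fin a → Fin b → Fin c → ℂ) {U : Matrix (Fin a) (Fin a) ℂ}
    {V : Matrix (Fin b) (Fin b) ℂ} {W : Matrix (Fin c) (Fin c) ℂ}
    (hU : U.PosSemidef) (hV : V.PosSemidef) (hW : W.PosSemidef) :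
    (FG (fun k i p => B k i p - A k i p) U V W).re ≤ 2 * (FG A U V W).re + 2 * (FG B U V W).re := by
  have h1 : FG (fun k i p => B k i p - A k i p) U V W + FG (fun k i p => B k i p + A k i p) U V W =
      2 * FG A U V W + 2 * FG B U V W := by
    unfold FG
    simp only [Finset.mul_sum, ← Finset.sum_add_distrib]
    refine Finset.sum_congr rfl fun k _ => Finset.sum_congr rfl fun l _ =>
      Finset.sum_congr rfl fun i _ => Finset.sum_congr rfl fun j _ =>
      Finset.sum_congr rfl fun q _ => Finset.sum_congr rfl fun p _ => ?_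
    rw [map_sub, map_add]
    ring
  have h2 := FG_nonneg (fun k i p => B k i p + A k i p) hU hV hW
  have h3 := (Complex.nonneg_iff.1 h2).1
  have h4 := congrArg Complex.re h1
  simp only [Complex.add_re, Complex.mul_re, Complex.re_ofNat, Complex.im_ofNat, zero_mul,
    sub_zero] at h4
  linarith

/-- Change of the first index. -/
theorem FG_pull {d : ℕ} (T : Fin a → Fin b → Fin c → ℂ) (σ : Matrix (Fin d) (Fin a) ℂ)
    (K : Matrix (Fin d) (Fin d) ℂ) (V : Matrix (Fin b) (Fin b) ℂ)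
    (W : Matrix (Fin c) (Fin c) ℂ) :
    FG T (σᴴ * K * σ) V W = FG (fun i k p => ∑ e, σ i e * T e k p) K V W := by
  rw [FG_quad, FG_quad]
  have h1 : tv (fun i k p => ∑ e, σ i e * T e k p) =
      (σ ⊗ₖ ((1 : Matrix (Fin b) (Fin b) ℂ) ⊗ₖ (1 : Matrix (Fin c) (Fin c) ℂ))) *ᵥ tv T := by
    rw [Matrix.one_kronecker_one]
    funext ⟨i, k, p⟩
    simp only [tv, Matrix.mulVec, dotProduct, Fintype.sum_prod_type, Matrix.kroneckerMap_apply]
    refine Finset.sum_congr rfl fun e _ => ?_
    rw [Finset.sum_eq_single k, Finset.sum_eq_single p]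
    · rw [Matrix.one_apply_eq, mul_one]
    · intro q _ hq
      rw [Matrix.one_apply_ne (by
        intro h
        exact hq (congrArg Prod.snd h).symm), mul_zero, zero_mul]
    · intro h
      exact absurd (Finset.mem_univ _) h
    · intro j _ hj
      refine Finset.sum_eq_zero fun q _ => ?_
      rw [Matrix.one_apply_ne (by
        intro h
        exact hj (congrArg Prod.fst h).symm), mul_zero, zero_mul]
    · intro h
      exact absurd (Finset.mem_univ _) h
  rw [h1, Matrix.star_mulVec, ← Matrix.dotProduct_mulVec, Matrix.mulVec_mulVec,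
    Matrix.mulVec_mulVec]
  congr 2
  rw [Matrix.conjTranspose_kronecker, Matrix.conjTranspose_kronecker,
    Matrix.conjTranspose_one, Matrix.conjTranspose_one, ← Matrix.mul_kronecker_mul,
    ← Matrix.mul_kronecker_mul, ← Matrix.mul_kronecker_mul, ← Matrix.mul_kronecker_mul,
    Matrix.one_mul, Matrix.mul_one, Matrix.one_mul, Matrix.mul_one, Matrix.mul_assoc]

/-- `AAs` as a Hermitian form. -/
theorem AAs_eq {n m : ℕ} (σ : Cn n → Matrix (Fin n) (Fin m) ℂ)
    (h : Cn n → Matrix (Fin m) (Fin m) ℂ) (Q : Cn n → Matrix (Fin n) (Fin n) ℂ) (x : Cn n) :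
    AAs σ h Q x = (FG (fun k i p => tauS σ h Q k x i p) (Q x)⁻¹ (Q x)⁻¹ (h x)).re := by
  unfold AAs FG
  congr 1
  refine Finset.sum_congr rfl fun k _ => Finset.sum_congr rfl fun l _ => ?_
  rw [Matrix.trace, Finset.mul_sum]
  refine Finset.sum_congr rfl fun i _ => ?_
  rw [Matrix.diag_apply, Matrix.mul_apply, Finset.mul_sum]
  refine Finset.sum_congr rfl fun j _ => ?_
  rw [Matrix.mul_apply, Finset.sum_mul, Finset.mul_sum]
  refine Finset.sum_congr rfl fun q _ => ?_
  rw [Matrix.mul_apply, Finset.sum_mul, Finset.sum_mul, Finset.mul_sum]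
  refine Finset.sum_congr rfl fun p _ => ?_
  rw [Matrix.conjTranspose_apply, Complex.star_def]
  ring

end Pool.Agent.Helper50.FM
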