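import Pool.Agent.Helper18.FM.GoalsB
import Pool.Agent.Helper50.FM.FG
import Pool.Agent.Helper57.HX.Wcc
import Pool.Agent.Helper15.RBC.RLP

/-!
# FM: the goal `FTR` (the torsion of the target vanishes on `(im σ, im X)`)
-/

open Complex Metric Set Filter Topology MeasureTheory
open scoped ContDiff ComplexConjugate ComplexOrder Manifold Matrix

namespace Pool.Agent.Helper50.FM.FTR

open Pool.Agent.Helper95.Lin Pool.Agent.Helper16.Abund Pool.Agent.Helper92.Orb
  Pool.Agent.Helper10.SP Pool.Agent.Helper95.RK Pool.Agent.Helper57.HS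
  Pool.Agent.Helper15.HS Pool.Agent.Helper15.GS Pool.Agent.Helper57.RBC Pool.Agent.Helper82.HB
  Pool.Agent.Helper18.FM Pool.Agent.Helper50.FM
open Pool.Agent.Helper10.RBC (dn)
open Pool.Agent.Helper29.HB (WL)
open Pool.Agent.Helper27.TRB (tw)
open Pool.Agent.Helper56.HS.DBZ (contM cont_inv cont_trace trace_nonneg)

universe u

variable {n m : ℕ}

theorem jm1 {T : Set (Cn n)} {f : Cn n → ℂ} (hf : ContinuousOn f T) :
    ContinuousOn (fun q : Cn n × Matrix (Fin m) (Fin m) ℂ => f q.1) (T ×ˢ univ) :=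
  hf.comp continuousOn_fst fun _ hq => hq.1

theorem jm2 {T : Set (Cn n)} (a c : Fin m) :
    ContinuousOn (fun q : Cn n × Matrix (Fin m) (Fin m) ℂ => q.2 a c) (T ×ˢ univ) := by
  have h1 : Continuous fun q : Cn n × Matrix (Fin m) (Fin m) ℂ => q.2 a c := by fun_prop
  exact h1.continuousOn

theorem jm_mul {S : Set (Cn n × Matrix (Fin m) (Fin m) ℂ)}
    {X Y : Cn n × Matrix (Fin m) (Fin m) ℂ → Matrix (Fin m) (Fin m) ℂ}
    (hX : ∀ a c, ContinuousOn (fun q => X q a c) S) (hY : ∀ a c, ContinuousOn (fun q => Y q a c) S)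
    (a c : Fin m) : ContinuousOn (fun q => (X q * Y q) a c) S := by
  simp only [Matrix.mul_apply]
  exact continuousOn_finsetSum _ fun p _ => (hX a p).mul (hY p c)

theorem cont_invm {T : Set (Cn n)} {Q : Cn n → Matrix (Fin m) (Fin m) ℂ}
    (hQ : ContinuousOn Q T) (h0 : ∀ x ∈ T, (Q x).det ≠ 0) :
    ContinuousOn (fun x => (Q x)⁻¹) T := by
  have h2 : ContinuousOn (fun x => (Q x).det) T :=
    (Continuous.matrix_det continuous_id).comp_continuousOn hQ
  have h1 : ContinuousOn (fun x => ((Q x).det)⁻¹ • (Q x).adjugate) T :=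
    (h2.inv₀ h0).smul ((Continuous.matrix_adjugate continuous_id).comp_continuousOn hQ)
  refine h1.congr fun x _ => ?_
  rw [Matrix.inv_def, Ring.inverse_eq_inv']

/-- A function which is continuous jointly is bounded on bounded sets. -/
theorem bd_jm {T C : Set (Cn n)} (hCT : C ⊆ T) (hC : IsCompact C)
    {Φ : Cn n → Matrix (Fin m) (Fin m) ℂ → ℝ}
    (hΦ : ContinuousOn (fun q : Cn n × Matrix (Fin m) (Fin m) ℂ => Φ q.1 q.2) (T ×ˢ univ))
    (K : ℝ) : ∃ M : ℝ, ∀ x ∈ C, ∀ X : Matrix (Fin m) (Fin m) ℂ, (∀ a c, ‖X a c‖ ≤ K) →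
    |Φ x X| ≤ M := by
  set Ψ : Cn n × (Fin m → Fin m → ℂ) → ℝ := fun q => Φ q.1 (Matrix.of q.2) with hΨ
  have hΨc : ContinuousOn Ψ (T ×ˢ univ) := hΦ
  set B : Set (Fin m → Fin m → ℂ) := Set.pi univ fun _ => Set.pi univ fun _ => closedBall 0 K
  have hBc : IsCompact B := isCompact_univ_pi fun _ => isCompact_univ_pi fun _ =>
    isCompact_closedBall _ _
  have hsub : C ×ˢ B ⊆ T ×ˢ univ := fun q hq => ⟨hCT hq.1, mem_univ _⟩
  obtain ⟨M, hM⟩ := (hC.prod hBc).exists_bound_of_continuousOn (hΨc.mono hsub)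
  refine ⟨M, fun x hx X hX => ?_⟩
  have mX : ((x, X) : Cn n × (Fin m → Fin m → ℂ)) ∈ C ×ˢ B := ⟨hx, fun a _ => fun c _ => by
    rw [mem_closedBall_zero_iff]
    exact hX a c⟩
  have h2 := hM _ mX
  rw [Real.norm_eq_abs] at h2
  exact h2

/-- `h⁻¹ X = ε σᴴ K σ`. -/
theorem inv_XS {ε : ℝ} {σ : Cn n → Matrix (Fin n) (Fin m) ℂ}
    {h : Cn n → Matrix (Fin m) (Fin m) ℂ} {Q : Cn n → Matrix (Fin n) (Fin n) ℂ} {x : Cn n}
    (hh : (h x).PosDef) :
    (h x)⁻¹ * XS ε σ h Q x = (ε : ℂ) • ((σ x)ᴴ * (Q x)⁻¹ * σ x) := by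
  have hu : IsUnit (h x).det := isUnit_iff_ne_zero.2 hh.det_pos.ne'
  unfold XS
  rw [Matrix.mul_smul]
  congr 1
  rw [Matrix.mul_assoc (h x * (σ x)ᴴ), Matrix.mul_assoc (h x), ← Matrix.mul_assoc (h x)⁻¹,
    Matrix.nonsing_inv_mul _ hu, Matrix.one_mul, Matrix.mul_assoc]

/-- The torsion of the target, one index contracted with `σ`. -/
noncomputable def TH (σ : Cn n → Matrix (Fin n) (Fin m) ℂ)
    (Γ : Fin m → Cn n → Matrix (Fin m) (Fin m) ℂ) (x : Cn n) (b : Fin m) (k : Fin n) (p : Fin m) :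
    ℂ := ∑ a, σ x k a * (Γ a x b p - Γ b x a p)

/-- Both indices contracted with `σ`: the antisymmetric part of `τ`. -/
theorem TH_tau {T : Set (Cn n)} {σ : Cn n → Matrix (Fin n) (Fin m) ℂ}
    {h : Cn n → Matrix (Fin m) (Fin m) ℂ} {Γ : Fin m → Cn n → Matrix (Fin m) (Fin m) ℂ}
    {C : Fin m → Fin m → Cn n → Matrix (Fin m) (Fin m) ℂ} (hCF : CF T σ h Γ C)
    {Q : Cn n → Matrix (Fin n) (Fin n) ℂ} (hQ : CHF Q T) {x : Cn n} (hx : x ∈ T) (i k : Fin n)
    (p : Fin m) :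
    ∑ b, σ x i b * TH σ Γ x b k p = tauS σ h Q k x i p - tauS σ h Q i x k p := by
  have h1 : ∀ k i : Fin n, (σ x * GamE h k x) i p = ∑ b, ∑ a, σ x i b * (σ x k a * Γ a x b p) := by
    intro k i
    rw [hCF.gam x hx k, Matrix.mul_apply]
    refine Finset.sum_congr rfl fun b _ => ?_
    rw [Matrix.sum_apply, Finset.mul_sum]
    refine Finset.sum_congr rfl fun a _ => ?_
    rw [Matrix.smul_apply, smul_eq_mul]
  have h2 : (Gam Q k x * σ x) i p = (Gam Q i x * σ x) k p := by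
    rw [Matrix.mul_apply, Matrix.mul_apply]
    refine Finset.sum_congr rfl fun l _ => ?_
    rw [Gam_symm hQ hx k i l]
  have h3 : cdR k σ x i p = cdR i σ x k p := hCF.sym x hx k i p
  unfold tauS
  rw [Matrix.sub_apply, Matrix.sub_apply, Matrix.add_apply, Matrix.add_apply, h2, h3, h1 k i,
    h1 i k]
  have h4 : ∑ b, σ x i b * TH σ Γ x b k p =
      (∑ b, ∑ a, σ x i b * (σ x k a * Γ a x b p)) - ∑ b, ∑ a, σ x i b * (σ x k a * Γ b x a p) := by
    rw [← Finset.sum_sub_distrib]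
    refine Finset.sum_congr rfl fun b _ => ?_
    unfold TH
    rw [← Finset.sum_sub_distrib, Finset.mul_sum]
    refine Finset.sum_congr rfl fun a _ => ?_
    ring
  have h5 : ∑ b, ∑ a, σ x i b * (σ x k a * Γ b x a p) =
      ∑ b, ∑ a, σ x k b * (σ x i a * Γ a x b p) := by
    rw [Finset.sum_comm]
    refine Finset.sum_congr rfl fun b _ => Finset.sum_congr rfl fun a _ => ?_
    ring
  rw [h4, h5]
  ring

/-- The estimate of the torsion. -/
theorem TH_le {T : Set (Cn n)} {σ : Cn n → Matrix (Fin n) (Fin m) ℂ}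
    {h : Cn n → Matrix (Fin m) (Fin m) ℂ} {Γ : Fin m → Cn n → Matrix (Fin m) (Fin m) ℂ}
    {C : Fin m → Fin m → Cn n → Matrix (Fin m) (Fin m) ℂ} (hCF : CF T σ h Γ C)
    {H Q : Cn n → Matrix (Fin n) (Fin n) ℂ} (hQ : CHF Q T) (hQp : ∀ x ∈ T, (Q x).PosDef)
    (hHp : ∀ x ∈ T, (H x).PosDef) (hhp : ∀ x ∈ T, (h x).PosDef) {ε : ℝ} (hε : 0 < ε)
    {x : Cn n} (hx : x ∈ T) :
    (FG (TH σ Γ x) ((h x)⁻¹ * XS ε σ h Q x) (H x)⁻¹ (h x)).re ≤
      4 * (Matrix.trace (Q x * (H x)⁻¹)).re * (ε * AAs σ h Q x) := by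
  have hK := (hQp x hx).posSemidef.inv
  have hh := (hhp x hx).posSemidef
  rw [inv_XS (hhp x hx), FG_smul, FG_pull, Complex.re_ofReal_mul]
  have e1 : (fun i k p => ∑ e, σ x i e * TH σ Γ x e k p) =
      fun i k p => tauS σ h Q k x i p - tauS σ h Q i x k p := by
    funext i k p
    exact TH_tau hCF hQ hx i k p
  rw [e1]
  set V : Fin n → Fin n → Fin m → ℂ := fun i k p => tauS σ h Q k x i p - tauS σ h Q i x k p with hV
  -- the second slot
  have h1 : (FG V (Q x)⁻¹ (H x)⁻¹ (h x)).re ≤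
      (Matrix.trace (Q x * (H x)⁻¹)).re * (FG V (Q x)⁻¹ (Q x)⁻¹ (h x)).re := by
    have h3 := Pool.Agent.Helper94.GS.tr_inv (hQp x hx) (hHp x hx)
    have h4 := (Complex.nonneg_iff.1 (FG_nonneg V hK h3 hh)).1
    rw [FG_right, Complex.sub_re, Complex.re_ofReal_mul] at h4
    linarith
  -- the torsion is bounded by `AAs`
  have h2 : (FG V (Q x)⁻¹ (Q x)⁻¹ (h x)).re ≤ 4 * AAs σ h Q x := by
    have h3 := FG_sub_le (fun i k p => tauS σ h Q i x k p) (fun i k p => tauS σ h Q k x i p)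
      hK hK hh
    have h4 : FG (fun i k p => tauS σ h Q k x i p) (Q x)⁻¹ (Q x)⁻¹ (h x) =
        FG (fun k i p => tauS σ h Q k x i p) (Q x)⁻¹ (Q x)⁻¹ (h x) :=
      FG_swap (fun k i p => tauS σ h Q k x i p) (Q x)⁻¹ (Q x)⁻¹ (h x)
    rw [h4, ← AAs_eq] at h3
    linarith
  have h5 : 0 ≤ (Matrix.trace (Q x * (H x)⁻¹)).re :=
    trace_nonneg (hQp x hx).posSemidef (hHp x hx).posSemidef.inv
  have h7 := mul_le_mul_of_nonneg_left h2 h5
  have h8 := mul_le_mul_of_nonneg_left (h1.trans h7) hε.le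
  refine h8.trans (le_of_eq ?_)
  ring

/-- FTR. -/
theorem t (hFCL : S_FCL.{u}) (hFSP : S_FSP.{u}) : Pool.Agent.Helper18.FM.S_FTR.{u} := by
  intro n m T G _ R H σ h χ c ψ hD Γ C hCF κ X s S N φ H' ε Q hL
  have hwl := hL.wl
  have hhp := hD.sf.posDef
  have hhs := hD.sf.smooth
  have hHp := hD.ket.posDef
  have hQk : ∀ j, KEt T R (Q j) := fun j => (hL.seq.tke j).ket
  have hQC : ∀ j, CHF (Q j) T := fun j => ⟨(hQk j).smooth, fun y hy =>
    ((hQk j).posDef y hy).isHermitian, (hQk j).closed⟩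
  have hε : ∀ j, 0 < ε j := hL.seq.eps
  have hcl := fun j => hFCL T R σ h hD.sf (Q j) (fun x => Q j x - rho (Q j) x) (hQk j)
    (fun x _ => (sub_sub_cancel _ _).symm)
  -- continuity
  have chM : ContinuousOn h T :=
    continuousOn_pi.2 fun i => continuousOn_pi.2 fun j => (hhs i j).continuousOn
  have ciM : ContinuousOn (fun x => (h x)⁻¹) T :=
    cont_invm chM fun y hy => (hhp y hy).det_pos.ne'
  have cHi : ContinuousOn (fun x => (H x)⁻¹) T :=
    cont_inv (contM hD.ket.smooth) fun y hy => (hHp y hy).det_pos.ne'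
  have cg : ContinuousOn (gS σ h) T := contM (hcl 0).1
  have cχ : ContinuousOn χ T := contM hD.pf.smooth
  have cQi : ∀ j, ContinuousOn (fun x => (Q j x)⁻¹) T := fun j =>
    cont_inv (contM (hQk j).smooth) fun y hy => ((hQk j).posDef y hy).det_pos.ne'
  have cEr : ∀ j, ContinuousOn (fun x => ε j * ERR σ h χ (Q j) x) T := by
    intro j
    have d2 : ContinuousOn (fun x => χ x * (Q j x)⁻¹) T :=
      (Continuous.matrix_mul continuous_fst continuous_snd).comp_continuousOn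
        (cχ.prodMk (cQi j))
    have d3 : ContinuousOn (fun x => χ x * (Q j x)⁻¹ * gS σ h x) T :=
      (Continuous.matrix_mul continuous_fst continuous_snd).comp_continuousOn (d2.prodMk cg)
    have d4 := cont_trace (Q := fun x => χ x * (Q j x)⁻¹ * gS σ h x) d3
      (contM (hQk j).smooth) fun y hy => ((hQk j).posDef y hy).det_pos.ne'
    exact continuousOn_const.mul ((hcl j).2.2.1.add ((hcl j).2.2.2.1.add d4))
  have hN0 : ∀ j, ∀ x ∈ T, 0 ≤ NKs σ h (Q j) x +
      (Matrix.trace (χ x * (Q j x)⁻¹ * gS σ h x * (Q j x)⁻¹)).re := fun j x hx =>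
    hD.trb x hx _ ((hQk j).posDef x hx).posSemidef.inv
  have hA0 : ∀ j, ∀ x ∈ T, 0 ≤ AAs σ h (Q j) x := fun j x hx => ((hcl j).2.2.2.2.2 x hx).2.2.1
  have hAE : ∀ j, ∀ x ∈ T, AAs σ h (Q j) x ≤ ERR σ h χ (Q j) x := by
    intro j x hx
    have h1 := hN0 j x hx
    unfold ERR
    linarith
  -- the function
  set Φ : Cn n → Matrix (Fin m) (Fin m) ℂ → ℝ := fun x Y =>
    (FG (TH σ Γ x) ((h x)⁻¹ * Y) (H x)⁻¹ (h x)).re with hΦd
  have hΦ : ContinuousOn (fun q : Cn n × Matrix (Fin m) (Fin m) ℂ => Φ q.1 q.2) (T ×ˢ univ) := by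
    refine Complex.continuous_re.comp_continuousOn ?_
    have cT : ∀ b k p, ContinuousOn (fun x => TH σ Γ x b k p) T := by
      intro b k p
      unfold TH
      exact continuousOn_finsetSum _ fun a _ => (hD.sf.holo k a).continuousOn.mul
        ((hCF.smG a b p).continuousOn.sub (hCF.smG b a p).continuousOn)
    have jX : ∀ a c, ContinuousOn (fun q : Cn n × Matrix (Fin m) (Fin m) ℂ =>
        ((h q.1)⁻¹ * q.2) a c) (T ×ˢ univ) :=
      jm_mul (X := fun q => (h q.1)⁻¹) (Y := fun q => q.2)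
        (fun a c => jm1 (continuousOn_pi.1 (continuousOn_pi.1 ciM a) c)) fun a c => jm2 a c
    unfold FG
    refine continuousOn_finsetSum _ fun k _ => continuousOn_finsetSum _ fun l _ =>
      continuousOn_finsetSum _ fun i _ => continuousOn_finsetSum _ fun j _ =>
      continuousOn_finsetSum _ fun q _ => continuousOn_finsetSum _ fun p _ => ?_
    refine (((jX l k).mul (jm1 (continuousOn_pi.1 (continuousOn_pi.1 cHi j) i))).mul
      (jm1 (hhs p q).continuousOn)).mul ?_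
    exact (jm1 (cT k i p)).mul (Complex.continuous_conj.comp_continuousOn (jm1 (cT l j q)))
  have hEc : ∀ j, ContinuousOn (fun x => Φ x (XS (ε j) σ h (Q j) x)) T := by
    intro j
    have hBc : ContinuousOn (fun x => XS (ε j) σ h (Q j) x) T :=
      continuousOn_pi.2 fun a => continuousOn_pi.2 fun c => hwl.Zc j a c
    exact ContinuousOn.comp (f := fun x => (x, XS (ε j) σ h (Q j) x)) hΦ
      (continuousOn_id.prodMk hBc) fun x hx => ⟨hx, mem_univ _⟩
  have hf0 : ∀ j, ∀ x ∈ T, 0 ≤ Φ x (XS (ε j) σ h (Q j) x) := by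
    intro j x hx
    have h1 : ((h x)⁻¹ * XS (ε j) σ h (Q j) x).PosSemidef := by
      rw [inv_XS (hhp x hx)]
      exact (((hQk j).posDef x hx).posSemidef.inv.conjTranspose_mul_mul_same (σ x)).smul
        (by exact_mod_cast (hε j).le)
    exact (Complex.nonneg_iff.1 (FG_nonneg (TH σ Γ x) h1 (hHp x hx).posSemidef.inv
      (hhp x hx).posSemidef)).1
  have hfle : ∀ j, ∀ x ∈ T, Φ x (XS (ε j) σ h (Q j) x) ≤
      4 * (Matrix.trace (Q j x * (H x)⁻¹)).re * (ε j * AAs σ h (Q j) x) := fun j x hx =>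
    TH_le hCF (hQC j) (hQk j).posDef hHp hhp (hε j) hx
  have hlim : ∀ D ⊆ T, IsCompact D → Tendsto (fun j => ∫ x in D, dn T κ H (Q j) x *
      Φ x (XS (ε j) σ h (Q j) x)) atTop (𝓝 0) := by
    intro D hDT hDc
    obtain ⟨K, hK0, hK⟩ := hL.wb
    obtain ⟨B, hB⟩ := hL.gB D hDT hDc
    obtain ⟨Kb, hKb⟩ := hwl.Zb D hDT hDc
    obtain ⟨M, hM'⟩ := bd_jm (Φ := Φ) hDT hDc hΦ Kb
    refine Pool.Agent.Helper94.GS.tend hDc (E := K) (K := 4 * |M|) (B := B)
      (g := fun j x => (Matrix.trace (Q j x * (H x)⁻¹)).re)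
      (a := fun j x => ε j * ERR σ h χ (Q j) x) (fun j => (hwl.wc j).mono hDT) ?_ ?_
      (fun j x hx => hwl.w0 j x (hDT hx)) (fun j x hx => (hK j x (hDT hx)).2)
      (fun j x hx => hf0 j x (hDT hx)) ?_ ?_ hK0.le ?_ hB (hL.err D hDT hDc)
    · intro j
      exact (cont_trace (contM (hQk j).smooth) (contM hD.ket.smooth) fun y hy =>
        (hHp y hy).det_pos.ne').mono hDT
    · intro j
      exact (cEr j).mono hDT
    · intro j x hx
      exact trace_nonneg ((hQk j).posDef x (hDT hx)).posSemidef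
        (hHp x (hDT hx)).posSemidef.inv
    · intro j x hx
      exact mul_nonneg (hε j).le ((hA0 j x (hDT hx)).trans (hAE j x (hDT hx)))
    · intro j x hx
      have h1 := hf0 j x (hDT hx)
      have h5 : 0 ≤ (Matrix.trace (Q j x * (H x)⁻¹)).re :=
        trace_nonneg ((hQk j).posDef x (hDT hx)).posSemidef (hHp x (hDT hx)).posSemidef.inv
      have h2 : Φ x (XS (ε j) σ h (Q j) x) ≤
          4 * (Matrix.trace (Q j x * (H x)⁻¹)).re * (ε j * ERR σ h χ (Q j) x) :=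
        (hfle j x (hDT hx)).trans (mul_le_mul_of_nonneg_left
          (mul_le_mul_of_nonneg_left (hAE j x (hDT hx)) (hε j).le) (by positivity))
      have h3 : Φ x (XS (ε j) σ h (Q j) x) ≤ |M| :=
        ((le_abs_self _).trans (hM' x hx _ (hKb j x hx))).trans (le_abs_self M)
      have h4 : Φ x (XS (ε j) σ h (Q j) x) ^ 2 ≤ |M| * Φ x (XS (ε j) σ h (Q j) x) := by
        rw [sq]
        exact mul_le_mul_of_nonneg_right h3 h1
      have h6 := mul_le_mul_of_nonneg_left h2 (abs_nonneg M)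
      refine (h4.trans h6).trans (le_of_eq ?_)
      ring
  have key := Pool.Agent.Helper57.HX.wcc T _ _ X hwl Φ hΦ
    (fun j x => Φ x (XS (ε j) σ h (Q j) x)) hEc (fun j x _ => le_rfl) hlim
  have hpsd := (hFSP T R H σ h χ c ψ hD κ X s S N φ H' ε Q hL).1
  intro x hx k f p
  have hu : IsUnit (h x).det := isUnit_iff_ne_zero.2 (hhp x hx).det_pos.ne'
  have hU : ((h x)⁻¹ * X x).PosSemidef := by
    have h1 := (hpsd x hx).2.1.mul_mul_conjTranspose_same (h x)⁻¹
    rw [(hhp x hx).inv.isHermitian.eq] at h1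
    have e : (h x)⁻¹ * (X x * h x) * (h x)⁻¹ = (h x)⁻¹ * X x := by
      rw [← Matrix.mul_assoc, Matrix.mul_assoc ((h x)⁻¹ * X x), Matrix.mul_nonsing_inv _ hu,
        Matrix.mul_one]
    rw [e] at h1
    exact h1
  have h0 := FG_zero (TH σ Γ x) hU (hHp x hx).inv (hhp x hx) (key x hx)
  have hA : ∀ b, X x f b = ∑ l, h x f l * ((h x)⁻¹ * X x) l b := by
    intro b
    rw [← Matrix.mul_apply, ← Matrix.mul_assoc, Matrix.mul_nonsing_inv _ hu, Matrix.one_mul]
  have e1 : ∑ a, ∑ b, σ x k a * X x f b * (Γ a x b p - Γ b x a p) =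
      ∑ b, X x f b * TH σ Γ x b k p := by
    rw [Finset.sum_comm]
    refine Finset.sum_congr rfl fun b _ => ?_
    unfold TH
    rw [Finset.mul_sum]
    refine Finset.sum_congr rfl fun a _ => ?_
    ring
  have e2 : ∑ b, X x f b * TH σ Γ x b k p =
      ∑ l, h x f l * ∑ b, ((h x)⁻¹ * X x) l b * TH σ Γ x b k p := by
    simp only [hA, Finset.sum_mul, Finset.mul_sum]
    rw [Finset.sum_comm]
    refine Finset.sum_congr rfl fun l _ => Finset.sum_congr rfl fun b _ => ?_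
    ring
  rw [e1, e2]
  simp only [h0, mul_zero, Finset.sum_const_zero]

end Pool.Agent.Helper50.FM.FTR
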